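import Pool.Agent.Lib.MP_b2ebfc_lc.Base

/-!
# DETEXP: expansion of a determinant `det (diag d + B)` by principal minors (helper17)
-/

set_option autoImplicit false

namespace Pool.Agent.Lib.MP_b2ebfc_lc.H17

open Finset

/-- Rows in `s` from `B`, the other rows from `diag d`. -/
theorem det_piecewise_diag {β R : Type*} [Fintype β] [DecidableEq β] [CommRing R]
    (d : β → R) (B : β → β → R) (s : Finset β) :
    (Matrix.of (fun x y => if x ∈ s then B x y else if x = y then d x else 0)).det =
      (Matrix.of fun x y : s => B x y).det * ∏ x ∈ sᶜ, d x := by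
  classical
  rw [← Matrix.det_submatrix_equiv_self (Equiv.sumCompl (fun x => x ∈ s))]
  have h_blocks : (Matrix.of (fun x y => if x ∈ s then B x y else if x = y then d x else 0)).submatrix
      (Equiv.sumCompl (fun x => x ∈ s)) (Equiv.sumCompl (fun x => x ∈ s)) =
      Matrix.fromBlocks
        (Matrix.of fun x y : {x // x ∈ s} => B x y)
        (Matrix.of fun (x : {x // x ∈ s}) (y : {x // x ∉ s}) => B x y) 0
        (Matrix.diagonal fun x : {x // x ∉ s} => d x) := by
    ext (i | i) (j | j)
    · simp [i.2]
    · simp [i.2]
    · have hij : (i : β) ≠ (j : β) := fun h => i.2 (h ▸ j.2)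
      simp [i.2, hij]
    · simp [i.2, Matrix.diagonal_apply, Subtype.ext_iff]
  rw [h_blocks, Matrix.det_fromBlocks_zero₂₁, Matrix.det_diagonal]
  congr 1
  exact (Finset.prod_subtype sᶜ (fun x => by simp) d).symm

theorem detexp : DetExpStatement := by
  intro β R _ _ _ d c t K
  classical
  have hD : (Matrix.of fun x y : β => (if x = y then d x else 0) + t * (c x * c y * K x y)).det =
      (Matrix.detRowAlternating : (β → R) [⋀^β]→ₗ[R] R)
        ((fun x y => t * (c x * c y * K x y)) + fun x y => if x = y then d x else 0) := by
    change Matrix.det _ = Matrix.det _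
    congr 1
    ext x y
    simp [add_comm]
  rw [hD, AlternatingMap.map_add_univ]
  refine Finset.sum_congr rfl fun s _ => ?_
  have h1 : (Matrix.detRowAlternating : (β → R) [⋀^β]→ₗ[R] R)
      (s.piecewise (fun x y => t * (c x * c y * K x y)) fun x y => if x = y then d x else 0) =
      (Matrix.of (fun x y => if x ∈ s then t * (c x * c y * K x y) else
        if x = y then d x else 0)).det := by
    change Matrix.det _ = Matrix.det _
    congr 1
    ext x y
    by_cases hx : x ∈ s <;> simp [hx]
  have h2 : (Matrix.of fun x y : s => t * (c x * c y * K x y)).det =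
      t ^ s.card * ((∏ x ∈ s, c x ^ 2) * minor K s) := by
    have e : (Matrix.of fun x y : s => t * (c x * c y * K x y)) =
        t • (Matrix.diagonal (fun x : s => c x) * (Matrix.of fun x y : s => K x y) *
          Matrix.diagonal (fun x : s => c x)) := by
      ext x y
      simp [Matrix.mul_diagonal, Matrix.diagonal_mul]
      ring
    rw [e, Matrix.det_smul, Matrix.det_mul, Matrix.det_mul, Matrix.det_diagonal,
      Fintype.card_coe]
    have hp : ∏ x : s, c x = ∏ x ∈ s, c x := Finset.prod_coe_sort s c
    rw [hp, Finset.prod_pow]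
    unfold minor
    ring
  change (Matrix.detRowAlternating : (β → R) [⋀^β]→ₗ[R] R)
      (s.piecewise (fun x y => t * (c x * c y * K x y)) fun x y => if x = y then d x else 0) = _
  rw [h1, det_piecewise_diag, h2]
  ring

end Pool.Agent.Lib.MP_b2ebfc_lc.H17
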