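import Pool.Agent.Lib.MP_b2ebfc_lc.Iface

/-!
# FINALP: the final sum (helper17)
-/

set_option autoImplicit false

namespace Pool.Agent.Lib.MP_b2ebfc_lc.H17

open Finset

theorem eval_cond_pos {e f g h : Expr} {s : St} (hh : e.eval s < f.eval s) :
    (Expr.cond e f g h).eval s = g.eval s := if_pos hh

theorem eval_cond_neg {e f g h : Expr} {s : St} (hh : ¬ e.eval s < f.eval s) :
    (Expr.cond e f g h).eval s = h.eval s := if_neg hh

theorem finalp_core (w n a b k u₀ : ℕ) (M : Fin a → Fin b → ℤ) (s : St) (N : ℕ → ℤ) (c : ℤ)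
    (hC : Ctx n a b M s) (h5 : s.r 5 = k) (h17 : s.r 17 = k + 1) (h18 : s.r 18 = n + 1)
    (h6 : s.r 6 = u₀) (hk1 : 1 ≤ k) (hka : k ≤ a) (hkb : k ≤ b)
    (h7 : ∀ i : ℕ, i ≤ (b + 1) * (b + 1) → s.m 7 i = zval n ^ i)
    (hm6 : ∀ i j : ℕ, i ≤ n → j ≤ n → s.m 6 ((i : ℤ) * (n + 1) + j) = (i.choose j : ℤ))
    (hN2 : ∀ u : ℕ, u₀ < u → u ≤ k →
      (s.m 18 u / zval n ^ ((b + 1) * (k - u))) % zval n = N u)
    (hN1 : ∀ u : ℕ, u ≤ u₀ → u ≤ k →
      (∑ r ∈ range (u + 1), (((a - (k - u) - r).choose (u - r) : ℕ) : ℤ) *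
        ((s.m 14 r / zval n ^ ((b + 1) * (k - u) + u)) % zval n -
          (s.m 15 r / zval n ^ ((b + 1) * (k - u) + u)) % zval n)) = N u)
    (hsum : ∑ u ∈ range (k + 1), (-1 : ℤ) ^ (k - u) * (u : ℤ) * N u = 2 * k * c)
    (hc0 : 0 ≤ c) (hc : c < 2 ^ w) :
    (finalP.run w s).r 2 = c := by
  have hz : s.r 7 = zval n := hC.hz
  have ha : s.r 3 = a := hC.ha
  have hb : s.r 4 = b := hC.hb
  have hab : a + b = n := hC.hab
  -- the index bound
  have hidx : ∀ u : ℕ, u ≤ k → (b + 1) * (k - u) + u ≤ (b + 1) * (b + 1) := by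
    intro u hu
    have h1 : (b + 1) * (k - u) + u ≤ (b + 1) * (k - u) + (b + 1) * u :=
      Nat.add_le_add_left (Nat.le_mul_of_pos_left u (Nat.succ_pos b)) _
    have h2 : (b + 1) * (k - u) + (b + 1) * u = (b + 1) * k := by
      rw [← Nat.mul_add, Nat.sub_add_cancel hu]
    calc (b + 1) * (k - u) + u ≤ (b + 1) * k := by rw [← h2]; exact h1
      _ ≤ (b + 1) * (b + 1) := Nat.mul_le_mul_left _ (by omega)
  have hbig : ∀ u : ℕ, u ≤ k → bigNE.eval (s.setR 30 u) = N u := by
    intro u hu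
    have hj : ((k : ℤ) - u) = ((k - u : ℕ) : ℤ) := by omega
    unfold bigNE
    by_cases huu : u₀ < u
    · rw [eval_cond_pos (by
        change (s.setR 30 (u : ℤ)).r 6 < (s.setR 30 (u : ℤ)).r 30
        rw [St.setR_r, St.setR_r, if_neg (by norm_num), if_pos rfl, h6]
        exact_mod_cast huu)]
      simp only [zdigE, jE, Expr.eval, St.setR_r, St.setR_m]
      norm_num
      rw [h5, hb, hz, hj]
      have e1 : ((b : ℤ) + 1) * ((k - u : ℕ) : ℤ) = (((b + 1) * (k - u) : ℕ) : ℤ) := by
        push_cast; ring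
      rw [e1, h7 _ (by have := hidx u hu; omega)]
      exact hN2 u huu hu
    · rw [eval_cond_neg (by
        change ¬ (s.setR 30 (u : ℤ)).r 6 < (s.setR 30 (u : ℤ)).r 30
        rw [St.setR_r, St.setR_r, if_neg (by norm_num), if_pos rfl, h6]
        intro h
        exact huu (by exact_mod_cast h))]
      rw [← hN1 u (by omega) hu]
      have h17' : ((s.setR 30 (u : ℤ)).r 17).toNat = k + 1 := by
        rw [St.setR_r, if_neg (by norm_num), h17]
        omega
      change ∑ r ∈ range ((s.setR 30 (u : ℤ)).r 17).toNat, (Expr.cond (.reg 30) (.reg 31) (.const 0)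
      (.mul (.arr 6 (.add (.mul (.sub (.sub (.reg 3) jE) (.reg 31)) (.reg 18))
          (.sub (.reg 30) (.reg 31))))
        (.sub (zdigE (.arr 14 (.reg 31)) (.add (.mul (.add (.reg 4) (.const 1)) jE) (.reg 30)))
          (zdigE (.arr 15 (.reg 31))
            (.add (.mul (.add (.reg 4) (.const 1)) jE) (.reg 30)))))).eval
              ((s.setR 30 (u : ℤ)).setR 31 (r : ℤ)) = _
      rw [h17']
      have hsub : range (u + 1) ⊆ range (k + 1) := by
        intro x hx
        rw [mem_range] at *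
        omega
      rw [← Finset.sum_subset hsub]
      · refine Finset.sum_congr rfl fun r hr => ?_
        rw [mem_range] at hr
        have hr' : r ≤ u := by omega
        rw [eval_cond_neg (by
          change ¬ ((s.setR 30 (u : ℤ)).setR 31 (r : ℤ)).r 30 <
            ((s.setR 30 (u : ℤ)).setR 31 (r : ℤ)).r 31
          rw [St.setR_r, St.setR_r, St.setR_r, if_neg (by norm_num), if_pos rfl, if_pos rfl]
          intro h
          have : u < r := by exact_mod_cast h
          omega)]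
        simp only [zdigE, jE, Expr.eval, St.setR_r, St.setR_m]
        norm_num
        rw [h5, hb, hz, ha, h18, hj]
        have e1 : ((b : ℤ) + 1) * ((k - u : ℕ) : ℤ) + (u : ℤ) =
            (((b + 1) * (k - u) + u : ℕ) : ℤ) := by
          push_cast; ring
        have e2 : (a : ℤ) - ((k - u : ℕ) : ℤ) - (r : ℤ) = ((a - (k - u) - r : ℕ) : ℤ) := by
          omega
        have e3 : (u : ℤ) - (r : ℤ) = ((u - r : ℕ) : ℤ) := by omega
        rw [e1, e2, e3, h7 _ (hidx u hu), hm6 _ _ (by omega) (by omega)]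
      · intro r hr hr'
        rw [mem_range] at hr hr'
        rw [eval_cond_pos (by
          change ((s.setR 30 (u : ℤ)).setR 31 (r : ℤ)).r 30 <
            ((s.setR 30 (u : ℤ)).setR 31 (r : ℤ)).r 31
          rw [St.setR_r, St.setR_r, St.setR_r, if_neg (by norm_num), if_pos rfl, if_pos rfl]
          have : u < r := by omega
          exact_mod_cast this)]
        rfl
  have hev : (Expr.sum 30 (.reg 17) (.mul (.cond (.mod jE (.const 2)) (.const 1)
    (.reg 30) (.sub (.const 0) (.reg 30))) bigNE)).eval s = 2 * k * c := by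
    rw [← hsum]
    change ∑ u ∈ range (s.r 17).toNat, (Expr.cond (.mod jE (.const 2)) (.const 1)
      (.reg 30) (.sub (.const 0) (.reg 30))).eval (s.setR 30 (u : ℤ)) *
      bigNE.eval (s.setR 30 (u : ℤ)) = _
    have h17' : (s.r 17).toNat = k + 1 := by
      rw [h17]; omega
    rw [h17']
    refine Finset.sum_congr rfl fun u hu => ?_
    rw [mem_range] at hu
    have hu' : u ≤ k := by omega
    rw [hbig u hu']
    congr 1
    have hj : ((k : ℤ) - u) = ((k - u : ℕ) : ℤ) := by omega
    have hjE : (Expr.mod jE (.const 2)).eval (s.setR 30 (u : ℤ)) = ((k - u : ℕ) : ℤ) % 2 := by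
      change ((s.setR 30 (u : ℤ)).r 5 - (s.setR 30 (u : ℤ)).r 30) % 2 = _
      rw [St.setR_r, St.setR_r, if_neg (by norm_num), if_pos rfl, h5, hj]
    have h30 : (s.setR 30 (u : ℤ)).r 30 = u := by rw [St.setR_r, if_pos rfl]
    rcases Nat.even_or_odd (k - u) with he | ho
    · rw [he.neg_one_pow, eval_cond_pos, one_mul]
      · exact h30
      · rw [hjE]
        change _ < (1 : ℤ)
        have := Nat.even_iff.1 he
        omega
    · rw [ho.neg_one_pow, eval_cond_neg]
      · change 0 - (s.setR 30 (u : ℤ)).r 30 = _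
        rw [h30]
        ring
      · rw [hjE]
        change ¬ _ < (1 : ℤ)
        have := Nat.odd_iff.1 ho
        omega
  have hrun : (finalP.run w s).r 2 = (2 * k * c) / (2 * k) % 2 ^ w := by
    unfold finalP
    simp only [Prog.run, St.setR_r, if_true]
    rw [← hev, ← h5]
    rfl
  rw [hrun, Int.mul_ediv_cancel_left c (by positivity : (2 * (k : ℤ)) ≠ 0)]
  exact Int.emod_eq_of_lt hc0 hc

theorem finalp : FinalPStatement := by
  intro w n a b k u₀ M s N c _ hC h5 h17 h18 h6 hk1 hka hab h7 hm6 hN2 hN1 hsum hc0 hc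
  exact finalp_core w n a b k u₀ M s N c hC h5 h17 h18 h6 hk1 hka (hka.trans hab) h7 hm6 hN2 hN1
    hsum hc0 hc

end Pool.Agent.Lib.MP_b2ebfc_lc.H17
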