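import Pool.Agent.Lib.MP_b2ebfc_lc.Iface

/-!
# KRON: the determinants as Kronecker substitutions of the coefficient sums (helper17)
-/

set_option autoImplicit false

namespace Pool.Agent.Lib.MP_b2ebfc_lc.H17

open Finset

/-- Re-indexing a double sum by division with remainder. -/
theorem sum_divmod (b : ℕ) (g : ℕ → ℕ → ℤ) :
    ∑ h ∈ range ((b + 1) * (b + 1)), g (h / (b + 1)) (h % (b + 1)) =
      ∑ j ∈ range (b + 1), ∑ u ∈ range (b + 1), g j u := by
  rw [← Finset.sum_product' (s := range (b + 1)) (t := range (b + 1)) (f := g)]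
  refine Finset.sum_nbij' (fun h => (h / (b + 1), h % (b + 1)))
    (fun p => (b + 1) * p.1 + p.2) ?_ ?_ ?_ ?_ ?_
  · intro h hh
    rw [mem_range] at hh
    rw [mem_product, mem_range, mem_range]
    exact ⟨Nat.div_lt_of_lt_mul hh, Nat.mod_lt _ (Nat.succ_pos b)⟩
  · intro p hp
    rw [mem_product, mem_range, mem_range] at hp
    rw [mem_range]
    obtain ⟨h1, h2⟩ := hp
    calc (b + 1) * p.1 + p.2 < (b + 1) * p.1 + (b + 1) := by omega
      _ = (b + 1) * (p.1 + 1) := by ring
      _ ≤ (b + 1) * (b + 1) := Nat.mul_le_mul_left _ (by omega)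
  · intro h _
    exact Nat.div_add_mod h (b + 1)
  · intro p hp
    rw [mem_product, mem_range, mem_range] at hp
    have h1 : ((b + 1) * p.1 + p.2) / (b + 1) = p.1 := by
      rw [Nat.mul_add_div (Nat.succ_pos b), Nat.div_eq_of_lt hp.2, add_zero]
    have h2 : ((b + 1) * p.1 + p.2) % (b + 1) = p.2 := by
      rw [Nat.mul_add_mod, Nat.mod_eq_of_lt hp.2]
    exact Prod.ext h1 h2
  · intro h _
    rfl

/-- Sorting the subsets by their cardinality. -/
theorem sum_by_card {b : ℕ} (f : Finset (Fin b) → ℤ) :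
    ∑ T : Finset (Fin b), f T = ∑ j ∈ range (b + 1), ∑ T ∈ powersetCard j univ, f T := by
  rw [← Finset.powerset_univ, Finset.sum_powerset]
  simp

/-- Expansion of a product of terms `1 + z w`. -/
theorem prod_expand {b : ℕ} (S : Finset (Fin b)) (z : ℤ) (wt : Fin b → ℤ) :
    ∏ x ∈ S, (1 + z * wt x) =
      ∑ u ∈ range (b + 1), ∑ W ∈ powersetCard u S, (∏ w ∈ W, wt w) * z ^ u := by
  rw [Finset.prod_one_add, Finset.sum_powerset]
  have hle : S.card ≤ b := by
    have := Finset.card_le_univ S
    rwa [Fintype.card_fin] at this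
  have hsub : range (S.card + 1) ⊆ range (b + 1) := by
    intro x hx
    rw [mem_range] at *
    omega
  rw [← Finset.sum_subset hsub]
  · refine Finset.sum_congr rfl fun u _ => Finset.sum_congr rfl fun W hW => ?_
    rw [Finset.prod_mul_distrib, Finset.prod_const, (Finset.mem_powersetCard.1 hW).2]
    ring
  · intro u _ hu
    rw [mem_range, not_lt] at hu
    rw [Finset.powersetCard_eq_empty.2 (by omega), Finset.sum_empty]

theorem kron (hD : DetExpStatement) : KronStatement := by
  intro a b M z
  refine ⟨fun P P' => ?_, fun U W => ?_⟩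
  · have e1 : ∑ h ∈ range ((b + 1) * (b + 1)),
        coefI M P P' (h / (b + 1)) (h % (b + 1)) * z ^ h =
        ∑ j ∈ range (b + 1), ∑ u ∈ range (b + 1), coefI M P P' j u * z ^ ((b + 1) * j + u) := by
      rw [← sum_divmod b (fun j u => coefI M P P' j u * z ^ ((b + 1) * j + u))]
      refine Finset.sum_congr rfl fun h _ => ?_
      rw [Nat.div_add_mod]
    rw [e1]
    unfold detI detZ
    rw [hD (Fin b) ℤ (fun x => 1 + z * (cnb M P x * cnb M P' x)) (fun _ => 1) (z ^ (b + 1))
      (gram M (P ∪ P')ᶜ), sum_by_card]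
    refine Finset.sum_congr rfl fun j _ => ?_
    have hc : ∀ u : ℕ, coefI M P P' j u * z ^ ((b + 1) * j + u) =
        ∑ T ∈ powersetCard j (univ : Finset (Fin b)), ∑ W ∈ powersetCard u Tᶜ,
          (∏ w ∈ W, cnb M P w * cnb M P' w) * minor (gram M (P ∪ P')ᶜ) T *
            z ^ ((b + 1) * j + u) := by
      intro u
      rw [show coefI M P P' j u = ∑ T ∈ powersetCard j (univ : Finset (Fin b)),
        ∑ W ∈ powersetCard u Tᶜ,
          (∏ w ∈ W, cnb M P w * cnb M P' w) * minor (gram M (P ∪ P')ᶜ) T from rfl,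
        Finset.sum_mul]
      exact Finset.sum_congr rfl fun T _ => Finset.sum_mul _ _ _
    rw [Finset.sum_congr rfl fun u _ => hc u, Finset.sum_comm]
    refine Finset.sum_congr rfl fun T hT => ?_
    rw [prod_expand, (Finset.mem_powersetCard.1 hT).2]
    simp only [one_pow, Finset.prod_const_one, mul_one]
    rw [Finset.sum_mul, Finset.sum_mul]
    refine Finset.sum_congr rfl fun u _ => ?_
    rw [Finset.sum_mul, Finset.sum_mul]
    refine Finset.sum_congr rfl fun W _ => ?_
    rw [pow_add z ((b + 1) * j) u, pow_mul z (b + 1) j]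
    ring
  · have e1 : ∑ h ∈ range ((b + 1) * (b + 1)),
        (if h % (b + 1) = 0 then coefII M U W (h / (b + 1)) else 0) * z ^ h =
        ∑ j ∈ range (b + 1), coefII M U W j * z ^ ((b + 1) * j) := by
      rw [← Finset.sum_congr rfl (fun h _ => by rw [Nat.div_add_mod] :
        ∀ h ∈ range ((b + 1) * (b + 1)),
          (if h % (b + 1) = 0 then coefII M U W (h / (b + 1)) else 0) *
            z ^ ((b + 1) * (h / (b + 1)) + h % (b + 1)) =
          (if h % (b + 1) = 0 then coefII M U W (h / (b + 1)) else 0) * z ^ h)]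
      rw [sum_divmod b (fun j u => (if u = 0 then coefII M U W j else 0) *
        z ^ ((b + 1) * j + u))]
      refine Finset.sum_congr rfl fun j _ => ?_
      rw [Finset.sum_eq_single 0]
      · simp
      · intro u _ hu
        simp [hu]
      · intro h
        simp at h
    rw [e1]
    unfold detII detZ
    rw [hD (Fin b) ℤ (fun x => 1 + z * 0) (fun x => if x ∈ W then 0 else 1) (z ^ (b + 1))
      (gram M Uᶜ), sum_by_card]
    refine Finset.sum_congr rfl fun j _ => ?_
    unfold coefII
    rw [Finset.sum_mul]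
    have hsub : powersetCard j Wᶜ ⊆ powersetCard j (univ : Finset (Fin b)) :=
      Finset.powersetCard_mono (Finset.subset_univ _)
    rw [← Finset.sum_subset hsub]
    · refine Finset.sum_congr rfl fun T hT => ?_
      rw [Finset.mem_powersetCard] at hT
      have h1 : ∏ x ∈ T, (if x ∈ W then (0 : ℤ) else 1) ^ 2 = 1 := by
        refine Finset.prod_eq_one fun x hx => ?_
        have : x ∉ W := Finset.mem_compl.1 (hT.1 hx)
        simp [this]
      rw [h1, hT.2]
      simp only [mul_zero, add_zero, Finset.prod_const_one, one_mul]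
      rw [pow_mul]
      ring
    · intro T hT hT'
      rw [Finset.mem_powersetCard] at hT hT'
      have : ∃ x ∈ T, x ∈ W := by
        by_contra hc
        push Not at hc
        exact hT' ⟨fun x hx => Finset.mem_compl.2 (hc x hx), hT.2⟩
      obtain ⟨x, hx, hxW⟩ := this
      have h0 : ∏ x ∈ T, (if x ∈ W then (0 : ℤ) else 1) ^ 2 = 0 :=
        Finset.prod_eq_zero hx (by simp [hxW])
      rw [h0]
      ring

end Pool.Agent.Lib.MP_b2ebfc_lc.H17
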